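import Pool.Agent.H22.CM.Stm

set_option autoImplicit false

namespace H99.CM

open H22.CM

/-- square roots of one modulo `4 M`, `M = 2 ^ a` -/
lemma sqrt_one (a r t : ℕ) (hr : r < 4 * 2 ^ a) (h : r * r = 1 + 4 * 2 ^ a * t) :
    r = 1 ∨ r = 2 * 2 ^ a + 1 ∨ r = 4 * 2 ^ a - 1 ∨ r = 2 * 2 ^ a - 1 := by
  have hM : 1 ≤ 2 ^ a := Nat.one_le_two_pow
  have hodd : r % 2 = 1 := by
    rcases Nat.mod_two_eq_zero_or_one r with h0 | h1
    · obtain ⟨q, rfl⟩ : ∃ q, r = 2 * q := ⟨r / 2, by omega⟩
      exfalso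
      have : (2 * q) * (2 * q) = 2 * (2 * q * q) := by ring
      have h2 : 1 + 4 * 2 ^ a * t = 1 + 2 * (2 * 2 ^ a * t) := by ring
      rw [this, h2] at h
      omega
    · exact h1
  obtain ⟨s, rfl⟩ : ∃ s, r = 2 * s + 1 := ⟨r / 2, by omega⟩
  have hs : s * (s + 1) = 2 ^ a * t := by
    have : (2 * s + 1) * (2 * s + 1) = 1 + 4 * (s * (s + 1)) := by ring
    rw [this] at h
    have h2 : 1 + 4 * 2 ^ a * t = 1 + 4 * (2 ^ a * t) := by ring
    rw [h2] at h
    omega
  have hdv : 2 ^ a ∣ s * (s + 1) := ⟨t, hs⟩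
  rcases Nat.mod_two_eq_zero_or_one s with h0 | h1
  · have hc : Nat.Coprime (2 ^ a) (s + 1) := by
      apply Nat.Coprime.pow_left
      rw [Nat.coprime_two_left, Nat.odd_iff]
      omega
    have : 2 ^ a ∣ s := hc.dvd_of_dvd_mul_right hdv
    obtain ⟨q, hq⟩ := this
    have hq2 : q < 2 := by
      by_contra hq2
      push Not at hq2
      have : 2 ^ a * 2 ≤ 2 ^ a * q := Nat.mul_le_mul_left _ hq2
      omega
    interval_cases q
    · left; omega
    · right; left; omega
  · have hc : Nat.Coprime (2 ^ a) s := by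
      apply Nat.Coprime.pow_left
      rw [Nat.coprime_two_left, Nat.odd_iff]
      omega
    have : 2 ^ a ∣ s + 1 := hc.dvd_of_dvd_mul_left hdv
    obtain ⟨q, hq⟩ := this
    have hq2 : q < 3 := by
      by_contra hq2
      push Not at hq2
      have : 2 ^ a * 3 ≤ 2 ^ a * q := Nat.mul_le_mul_left _ hq2
      omega
    interval_cases q
    · omega
    · right; right; right; omega
    · right; right; left; omega

lemma exists_pow_lt {G : Type} [Group G] [Finite G] {c x : G} (h : x ∈ Subgroup.zpowers c) :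
    ∃ n < orderOf c, x = c ^ n := by
  rw [← mem_powers_iff_mem_zpowers] at h
  obtain ⟨n, hn⟩ := h
  refine ⟨n % orderOf c, Nat.mod_lt _ (orderOf_pos c), ?_⟩
  rw [pow_mod_orderOf]
  exact hn.symm

theorem t_CLS : S_CLS := by
  intro G _ _ k hk hcard hnc hx
  obtain ⟨c, hc⟩ := hx
  obtain ⟨a, rfl⟩ : ∃ a, k = a + 1 := ⟨k - 1, by omega⟩
  have hpow : 2 ^ (a + 1) = 2 * 2 ^ a := by ring
  set m := 2 ^ (a + 1) with hm
  have hM1 : 1 ≤ 2 ^ a := Nat.one_le_two_pow
  have hoc : orderOf c = 2 * m := by omega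
  have hidx : (Subgroup.zpowers c).index = 2 := by
    have h1 := Subgroup.card_mul_index (Subgroup.zpowers c)
    rw [Nat.card_zpowers, hoc, hcard] at h1
    have h2 : 2 * m * (Subgroup.zpowers c).index = 2 * m * 2 := by rw [h1]; ring
    exact Nat.eq_of_mul_eq_mul_left (by omega) h2
  haveI hN : (Subgroup.zpowers c).Normal := Subgroup.normal_of_index_eq_two hidx
  obtain ⟨b, hb⟩ : ∃ b, b ∉ Subgroup.zpowers c := by
    by_contra hcon
    push Not at hcon
    have : Subgroup.zpowers c = ⊤ := by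
      rw [eq_top_iff]
      intro x _
      exact hcon x
    rw [this, Subgroup.index_top] at hidx
    omega
  obtain ⟨e, he, hbe⟩ := exists_pow_lt (Subgroup.mul_self_mem_of_index_two hidx b)
  obtain ⟨r, hr, hbr⟩ := exists_pow_lt (hN.conj_mem c (Subgroup.mem_zpowers c) b)
  rw [hoc] at he hr
  have hbn : ∀ n : ℕ, b * c ^ n = c ^ (r * n) * b := by
    intro n
    have : (b * c * b⁻¹) ^ n = b * c ^ n * b⁻¹ := conj_pow
    rw [hbr, ← pow_mul] at this
    rw [this]
    group
  have hbc : b * c = c ^ r * b := by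
    have := hbn 1
    simpa using this
  -- `r * r ≡ 1`
  have hrr : r * r ≡ 1 [MOD 2 * m] := by
    rw [← hoc, ← pow_eq_pow_iff_modEq]
    have h1 : b * b * c = c ^ (r * r) * (b * b) := by
      rw [mul_assoc, hbc, ← mul_assoc, hbn, mul_assoc]
    have h2 : b * b * c = c * (b * b) := by
      rw [hbe, ← pow_succ, ← pow_succ']
    rw [h2] at h1
    have := mul_right_cancel h1
    rw [← this, pow_one]
  have hre : r * e ≡ e [MOD 2 * m] := by
    rw [← hoc, ← pow_eq_pow_iff_modEq]
    have h1 : b * (b * b) = c ^ (r * e) * b := by rw [hbe, hbn]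
    have h2 : b * (b * b) = c ^ e * b := by rw [← mul_assoc, hbe]
    rw [h2] at h1
    exact (mul_right_cancel h1).symm
  have hfam : ∀ j e' : ℕ, j + r * j + e ≡ e' [MOD 2 * m] → Fam G m r e' := by
    intro j e' hj
    refine ⟨c, c ^ j * b, hoc, ?_, ?_, ?_, hcard⟩
    · intro hcon
      exact hb ((Subgroup.mul_mem_cancel_left _ (Subgroup.npow_mem_zpowers c j)).mp hcon)
    · rw [mul_assoc, hbc, ← mul_assoc, ← mul_assoc, ← pow_add, ← pow_add, add_comm]
    · have h1 : c ^ j * b * (c ^ j * b) = c ^ (j + r * j + e) := by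
        rw [mul_assoc, ← mul_assoc b, hbn, mul_assoc, hbe, ← pow_add, ← pow_add]
        congr 1
        ring
      rw [h1, pow_eq_pow_iff_modEq, hoc]
      exact hj
  have hreI : ((2 * m : ℕ) : ℤ) ∣ (e : ℤ) - (r : ℤ) * e := by
    have := (Nat.modEq_iff_dvd).mp hre
    push_cast at this ⊢
    exact this
  obtain ⟨t, ht⟩ : ∃ t, r * r = 1 + 4 * 2 ^ a * t := by
    have hr0 : 1 ≤ r * r := by
      rcases Nat.eq_zero_or_pos (r * r) with h0 | h0
      · rw [h0] at hrr
        have h3 : (1 : ℕ) % (2 * m) = 0 % (2 * m) := hrr.symm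
        rw [Nat.mod_eq_of_lt (by omega), Nat.zero_mod] at h3
        omega
      · exact h0
    obtain ⟨t, ht⟩ := (Nat.modEq_iff_dvd' hr0).mp hrr.symm
    refine ⟨t, ?_⟩
    have : 4 * 2 ^ a = 2 * m := by omega
    rw [this]
    omega
  -- the type `r = 2 m - 1`
  have hlast : r = 2 * m - 1 → ∃ r e : ℕ, FT m r e ∧ Fam G m r e := by
    intro hr1
    have h1 : (m : ℤ) ∣ e := by
      have h2 : ((r : ℕ) : ℤ) = 2 * m - 1 := by rw [hr1]; push_cast [Nat.cast_sub (show 1 ≤ 2 * m by omega)]; ring
      rw [h2] at hreI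
      obtain ⟨q, hq⟩ := hreI
      push_cast at hq
      refine ⟨q + e, ?_⟩
      have : (2 : ℤ) * e = 2 * (m * (q + e)) := by linear_combination hq
      omega
    have h3 : m ∣ e := by exact_mod_cast h1
    obtain ⟨q, hq⟩ := h3
    have hq2 : q < 2 := by
      by_contra hq2
      push Not at hq2
      have : m * 2 ≤ m * q := Nat.mul_le_mul_left _ hq2
      omega
    refine ⟨r, e, ?_, hfam 0 e (by simp; rfl)⟩
    interval_cases q
    · right; right; left; exact ⟨hr1, by omega⟩
    · right; right; right; left; exact ⟨hr1, by omega⟩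
  -- the type `r = 1`
  have hfirst : r = 1 → ∃ r e : ℕ, FT m r e ∧ Fam G m r e := by
    intro hr1
    have heven : e % 2 = 0 := by
      by_contra hodd
      apply hnc
      have hcop : e.gcd (orderOf c) = 1 := by
        rw [hoc, hm, ← pow_succ']
        apply Nat.Coprime.pow_right
        rw [Nat.coprime_two_right, Nat.odd_iff]
        omega
      have hcb : c ∈ Subgroup.zpowers b := by
        have h1 : c ∈ Subgroup.zpowers (c ^ e) := mem_zpowers_pow_iff.mpr (by
          first
          | exact hcop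
          | exact (Nat.gcd_comm _ _).trans hcop)
        rw [← hbe] at h1
        have h2 : Subgroup.zpowers (b * b) ≤ Subgroup.zpowers b := by
          rw [Subgroup.zpowers_le]
          exact mul_mem (Subgroup.mem_zpowers b) (Subgroup.mem_zpowers b)
        exact h2 h1
      have hle : Subgroup.zpowers c ≤ Subgroup.zpowers b := by
        rw [Subgroup.zpowers_le]; exact hcb
      refine ⟨⟨b, fun x => ?_⟩⟩
      by_cases hx : x ∈ Subgroup.zpowers c
      · exact hle hx
      · have : x * b ∈ Subgroup.zpowers c :=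
          (Subgroup.mul_mem_iff_of_index_two hidx).mpr (iff_of_false hx hb)
        exact (Subgroup.mul_mem_cancel_right _ (Subgroup.mem_zpowers b)).mp (hle this)
    subst hr1
    refine ⟨1, 0, Or.inl ⟨rfl, rfl⟩, hfam (m - e / 2) 0 ?_⟩
    have : m - e / 2 + 1 * (m - e / 2) + e = 2 * m := by omega
    rw [this]
    simp [Nat.ModEq]
  rcases sqrt_one a r t (by omega) ht with h | h | h | h
  · exact hfirst h
  · rcases Nat.eq_zero_or_pos a with ha | ha
    · apply hlast
      subst ha
      simp at hpow h ⊢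
      omega
    · obtain ⟨a', rfl⟩ : ∃ a', a = a' + 1 := ⟨a - 1, by omega⟩
      have hp2 : 2 ^ (a' + 1) = 2 * 2 ^ a' := by ring
      set M := 2 ^ a' with hMdef
      have hm4 : m = 4 * M := by omega
      have hr2 : r = m + 1 := by omega
      -- `e` is even
      have heven : e % 2 = 0 := by
        obtain ⟨q, hq⟩ := hreI
        rw [hr2] at hq
        push_cast at hq
        have h1 : (m : ℤ) * (e + 2 * q) = 0 := by linear_combination -hq
        have hm0 : (m : ℤ) ≠ 0 := by
          have : 0 < m := by omega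
          exact_mod_cast this.ne'
        rcases mul_eq_zero.mp h1 with h2 | h2
        · exact absurd h2 hm0
        · omega
      obtain ⟨e₁, he₁⟩ : ∃ e₁, e = 2 * e₁ := ⟨e / 2, by omega⟩
      refine ⟨r, 0, Or.inr (Or.inl ⟨hr2, rfl⟩), hfam ((2 * M + 1) * (m - e₁)) 0 ?_⟩
      obtain ⟨d, hd⟩ : ∃ d, m = e₁ + d := ⟨m - e₁, by omega⟩
      have hd' : m - e₁ = d := by omega
      rw [Nat.modEq_zero_iff_dvd, hd']
      have key : (2 * M + 1) * d + r * ((2 * M + 1) * d) + e = 2 * m * (1 + (M + 1) * d) := by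
        have e1 : e₁ + d = 4 * M := by omega
        rw [hr2, he₁, hm4]
        zify at e1 ⊢
        have e2 : (e₁ : ℤ) = 4 * M - d := by linarith
        rw [e2]
        ring
      rw [key]
      exact Dvd.intro _ rfl
  · apply hlast
    omega
  · rcases Nat.eq_zero_or_pos a with ha | ha
    · apply hfirst
      subst ha
      simpa using h
    · obtain ⟨a', rfl⟩ : ∃ a', a = a' + 1 := ⟨a - 1, by omega⟩
      have hp2 : 2 ^ (a' + 1) = 2 * 2 ^ a' := by ring
      set M := 2 ^ a' with hMdef
      have hM1' : 1 ≤ M := Nat.one_le_two_pow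
      have hm4 : m = 4 * M := by omega
      have hr2 : r = m - 1 := by omega
      have h1 : m ∣ e := by
        have h2 : ((r : ℕ) : ℤ) = m - 1 := by rw [hr2]; push_cast [Nat.cast_sub (show 1 ≤ m by omega)]; ring
        rw [h2] at hreI
        obtain ⟨q, hq⟩ := hreI
        push_cast at hq
        have hm4' : (m : ℤ) = 4 * M := by exact_mod_cast hm4
        have h3 : (e : ℤ) * (1 - 2 * M) = m * q := by
          rw [hm4'] at hq ⊢
          have : (2 : ℤ) * (e * (1 - 2 * M)) = 2 * (4 * M * q) := by linear_combination hq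
          omega
        have hcop : IsCoprime (m : ℤ) (1 - 2 * M) := by
          refine ⟨M, 1 + 2 * M, ?_⟩
          rw [hm4']
          ring
        have h4 : (m : ℤ) ∣ e := hcop.dvd_of_dvd_mul_right ⟨q, h3⟩
        exact_mod_cast h4
      obtain ⟨q, hq⟩ := h1
      have hq2 : q < 2 := by
        by_contra hq2
        push Not at hq2
        have : m * 2 ≤ m * q := Nat.mul_le_mul_left _ hq2
        omega
      interval_cases q
      · refine ⟨r, 0, Or.inr (Or.inr (Or.inr (Or.inr ⟨hr2, rfl⟩))), hfam 0 0 ?_⟩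
        have : e = 0 := by omega
        rw [this]
        simp [Nat.ModEq]
      · refine ⟨r, 0, Or.inr (Or.inr (Or.inr (Or.inr ⟨hr2, rfl⟩))), hfam 1 0 ?_⟩
        have : 1 + r * 1 + e = 2 * m := by omega
        rw [this]
        simp [Nat.ModEq]

end H99.CM
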